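import Pool.Agent.Helper45.CF.GoalsA
import Pool.Agent.Helper42.Uct.RC
import Pool.Agent.Helper42.Uct.QT

/-!
Project CF (MP_d97caa_an), packet SUR: surjections of C*-algebras induce surjections of algebras of
continuous functions.
-/

set_option autoImplicit false

open scoped Topology
open Filter

namespace Pool.Agent.Helper36.CF.SUR

open Pool.Agent.Helper45.CF

theorem t : S_SUR := by
  intro Z A Q _ _ _ _ _ q hq
  have hcl : IsClosed (Set.range (mapC Z q)) :=
    Pool.Agent.Helper42.Uct.stmtRC Pool.Agent.Helper42.Uct.stmtQT C(Z, A) C(Z, Q) (mapC Z q)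
  have hdense : ∀ g : C(Z, Q), g ∈ closure (Set.range (mapC Z q)) := by
    intro g
    rw [Metric.mem_closure_iff]
    intro ε hε
    have hε2 : 0 < ε / 2 := half_pos hε
    have hconv : ∀ z : Z, Convex ℝ (q ⁻¹' Metric.ball (g z) (ε / 2)) := by
      intro z
      exact (convex_ball (g z) (ε / 2)).is_linear_preimage
        ⟨map_add q, fun c x => map_real_smul q (continuous_hom q) c x⟩
    have hloc : ∀ z : Z, ∃ a : A, ∀ᶠ y in 𝓝 z, a ∈ q ⁻¹' Metric.ball (g y) (ε / 2) := by
      intro z
      obtain ⟨a, ha⟩ := hq (g z)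
      refine ⟨a, ?_⟩
      have h1 : ∀ᶠ y in 𝓝 z, g y ∈ Metric.ball (g z) (ε / 2) :=
        g.continuous.continuousAt.eventually (Metric.ball_mem_nhds (g z) hε2)
      filter_upwards [h1] with y hy
      change q a ∈ Metric.ball (g y) (ε / 2)
      rw [ha, Metric.mem_ball, dist_comm]
      exact Metric.mem_ball.mp hy
    obtain ⟨f, hf⟩ := exists_continuous_forall_mem_convex_of_local_const hconv hloc
    refine ⟨mapC Z q f, ⟨f, rfl⟩, ?_⟩
    have h2 : dist g (mapC Z q f) ≤ ε / 2 := by
      rw [ContinuousMap.dist_le hε2.le]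
      intro z
      rw [mapC_apply, dist_comm]
      exact (Metric.mem_ball.mp (hf z)).le
    linarith
  intro g
  have h3 := hdense g
  rw [hcl.closure_eq] at h3
  exact h3

end Pool.Agent.Helper36.CF.SUR
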